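import Pool.Agent.Q114.TC.Short
import Pool.Agent.Q116.FF.Bw

/-!
# A Blanusa snark with one vertex replaced by a complete graph
-/

set_option autoImplicit false

namespace Q114.TC

open Finset Pool.Agent.TH362 Pool.Agent.TH362.TF Pool.Agent.TH362.TF.Four Q116.FF

set_option linter.unusedSectionVars false

/-- the vertices: the snark without the vertex `0`, and the complete graph -/
abbrev CV (m : ℕ) := {u : Fin 18 // u ≠ 0} ⊕ Fin m

/-- the edges: those of the snark, and those of the complete graph -/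
abbrev CE (m : ℕ) := Fin 27 ⊕ {p : Fin m × Fin m // p.1 < p.2}

variable {m : ℕ} [NeZero m]

/-- the vertex `u` of the snark, where `0` becomes the vertex `0` of the complete graph -/
def pt (u : Fin 18) : CV m := if h : u = 0 then Sum.inr 0 else Sum.inl ⟨u, h⟩

/-- the projection to the snark -/
def pr : CV m → Fin 18 := Sum.elim (fun u => u.1) (fun _ => 0)

omit [NeZero m] in
theorem pr_inr (j : Fin m) : pr (Sum.inr j : CV m) = 0 := rfl

theorem pr_pt (u : Fin 18) : pr (pt u : CV m) = u := by
  unfold pr pt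
  by_cases h : u = 0
  · rw [dif_pos h, Sum.elim_inr, h]
  · rw [dif_neg h, Sum.elim_inl]

/-- first end -/
def cs : CE m → CV m
  | Sum.inl e => pt (es e)
  | Sum.inr q => Sum.inr q.1.1

/-- second end -/
def ct : CE m → CV m
  | Sum.inl e => pt (et e)
  | Sum.inr q => Sum.inr q.1.2

/-- the edge joining `c` and `d` -/
def mk (c d : Fin m) (h : c ≠ d) : CE m := Sum.inr ⟨(min c d, max c d), min_lt_max.2 h⟩

theorem mk_ends (c d : Fin m) (h : c ≠ d) :
    (cs (mk c d h) = Sum.inr c ∧ ct (mk c d h) = Sum.inr d) ∨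
    (cs (mk c d h) = Sum.inr d ∧ ct (mk c d h) = Sum.inr c) := by
  unfold mk cs ct
  rcases le_total c d with h1 | h1
  · left
    simp [h1]
  · right
    simp [h1]

theorem csplit (x : CV m → Bool) (a b : Fin m) (h : x (Sum.inr a) ≠ x (Sum.inr b)) :
    m - 1 ≤ (cut cs ct univ x).card := by
  classical
  have hab : a ≠ b := fun hc => h (by rw [hc])
  let g : Fin m → CE m := fun c =>
    if h1 : c = b then mk a b hab
    else if x (Sum.inr c) ≠ x (Sum.inr a) then (if h2 : c = a then mk a b hab else mk c a h2)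
      else mk c b h1
  have hends : ∀ c, c ≠ a → ∃ d : Fin m, c ≠ d ∧ (d = a ∨ (d = b)) ∧
      x (Sum.inr c) ≠ x (Sum.inr d) ∧
      ((cs (g c) = Sum.inr c ∧ ct (g c) = Sum.inr d) ∨
        (cs (g c) = Sum.inr d ∧ ct (g c) = Sum.inr c)) := by
    intro c hc
    by_cases h1 : c = b
    · subst h1
      refine ⟨a, hc, Or.inl rfl, h.symm, ?_⟩
      have hg : g c = mk a c hab := by simp only [g, dif_pos]
      rw [hg]
      exact (mk_ends a c hab).symm
    · by_cases h2 : x (Sum.inr c) ≠ x (Sum.inr a)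
      · refine ⟨a, hc, Or.inl rfl, h2, ?_⟩
        have hg : g c = mk c a hc := by
          simp only [g]
          rw [dif_neg h1, if_pos h2, dif_neg hc]
        rw [hg]
        exact mk_ends c a hc
      · refine ⟨b, h1, Or.inr rfl, ?_, ?_⟩
        · push Not at h2
          rw [h2]; exact h
        · have hg : g c = mk c b h1 := by
            simp only [g]
            rw [dif_neg h1, if_neg h2]
          rw [hg]
          exact mk_ends c b h1
  have h1 : (univ.erase a).card ≤ (cut cs ct univ x).card := by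
    refine card_le_card_of_injOn g ?_ ?_
    · intro c hc
      rw [mem_coe, mem_erase] at hc
      obtain ⟨d, _, _, hx, hd⟩ := hends c hc.1
      unfold cut
      rw [mem_coe, mem_filter]
      refine ⟨mem_univ _, ?_⟩
      rcases hd with ⟨k1, k2⟩ | ⟨k1, k2⟩
      · rw [k1, k2]; exact hx
      · rw [k1, k2]; exact hx.symm
    · intro c hc c' hc' heq
      rw [mem_coe, mem_erase] at hc hc'
      obtain ⟨d, hcd, hd0, hx, hd⟩ := hends c hc.1
      obtain ⟨d', hcd', hd0', hx', hd'⟩ := hends c' hc'.1
      have key : (c = c' ∧ d = d') ∨ (c = d' ∧ d = c') := by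
        rw [← heq] at hd'
        rcases hd with ⟨k1, k2⟩ | ⟨k1, k2⟩ <;> rcases hd' with ⟨k3, k4⟩ | ⟨k3, k4⟩ <;>
          rw [k1] at k3 <;> rw [k2] at k4 <;> simp only [Sum.inr.injEq] at k3 k4
        · exact Or.inl ⟨k3, k4⟩
        · exact Or.inr ⟨k3, k4⟩
        · exact Or.inr ⟨k4, k3⟩
        · exact Or.inl ⟨k4, k3⟩
      rcases key with ⟨k, _⟩ | ⟨k1, k2⟩
      · exact k
      · have e1 : c = b := by
          rcases hd0' with h5 | h5
          · exact absurd (k1.trans h5) hc.1
          · exact k1.trans h5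
        have e2 : c' = b := by
          rcases hd0 with h5 | h5
          · exact absurd (k2.symm.trans h5) hc'.1
          · exact k2.symm.trans h5
        rw [e1, e2]
  rw [card_erase_of_mem (mem_univ a), card_univ, Fintype.card_fin] at h1
  exact h1

theorem cconst (x : CV m → Bool) (h : ∀ a b : Fin m, x (Sum.inr a) = x (Sum.inr b)) :
    (cut cs ct univ x).card = (cut es et univ (fun u => x (pt u))).card := by
  symm
  refine card_bij (fun e _ => (Sum.inl e : CE m)) ?_ ?_ ?_
  · intro e he
    unfold cut at he ⊢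
    rw [mem_filter] at he ⊢
    exact ⟨mem_univ _, he.2⟩
  · intro e _ e' _ h1
    exact Sum.inl_injective h1
  · intro e he
    unfold cut at he ⊢
    rw [mem_filter] at he
    rcases e with e | q
    · exact ⟨e, mem_filter.2 ⟨mem_univ _, he.2⟩, rfl⟩
    · exact absurd (h q.1.1 q.1.2) he.2

theorem csmall (hm : m = 1 ∨ 5 ≤ m) (x : CV m → Bool)
    (h : (cut cs ct univ x).card ≤ 3) : ∀ a b : Fin m, x (Sum.inr a) = x (Sum.inr b) := by
  intro a b
  rcases hm with hm | hm
  · subst hm
    rw [Subsingleton.elim a b]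
  · by_contra hc
    have := csplit x a b hc
    omega

theorem cval {x : CV m → Bool} (h : ∀ a b : Fin m, x (Sum.inr a) = x (Sum.inr b)) (w : CV m) :
    x w = x (pt (pr w)) := by
  rcases w with ⟨u, hu⟩ | j
  · have : (pt (pr (Sum.inl ⟨u, hu⟩ : CV m)) : CV m) = Sum.inl ⟨u, hu⟩ := by
      unfold pr pt
      rw [Sum.elim_inl, dif_neg hu]
    rw [this]
  · have : (pt (pr (Sum.inr j : CV m)) : CV m) = Sum.inr 0 := by
      unfold pr pt
      rw [Sum.elim_inr, dif_pos rfl]
    rw [this]
    exact h j 0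

theorem cn1 (hm : m = 1 ∨ 5 ≤ m) : N1 (cs (m := m)) ct univ := by
  intro x hx
  rw [cconst x (csmall hm x (by omega))] at hx
  exact (snark_cut _).1 hx

theorem cconn (hm : m = 1 ∨ 5 ≤ m) (x : CV m → Bool)
    (h : (cut cs ct univ x).card = 0) : (∀ v, x v = false) ∨ ∀ v, x v = true := by
  have h1 := csmall hm x (by omega)
  rw [cconst x h1] at h
  rcases snark_conn _ h with h2 | h2
  · left
    intro w
    rw [cval h1]; exact h2 _
  · right
    intro w
    rw [cval h1]; exact h2 _

theorem cncp (hm : m = 1 ∨ 5 ≤ m) : ¬ Multi.ContractsToPetersen (cs (m := m)) ct := by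
  intro h
  obtain ⟨x, h1, h2⟩ := petersen_classes h (cconn hm)
  refine no_classes (fun i u => x i (pt u)) (fun i => ?_) (fun u => h2 (pt u))
  rw [← cconst (x i) (csmall hm (x i) (by rw [h1 i]))]
  exact h1 i

theorem cnz : ¬ NZ (cs (m := m)) ct univ := by
  rintro ⟨φ, h1, h2⟩
  apply snark_nz
  refine ⟨fun e => φ (Sum.inl e), fun e _ => h1 _ (mem_univ _), fun u => ?_⟩
  have h3 : ∑ w ∈ univ.filter (fun w : CV m => pr w = u), ∑ e ∈ (univ : Finset (CE m)),
      ((if cs e = w then φ e else 0) + (if ct e = w then φ e else 0)) = 0 :=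
    sum_eq_zero fun w _ => h2 w
  have h4 : ∀ e : CE m, ∑ w ∈ univ.filter (fun w : CV m => pr w = u),
      ((if cs e = w then φ e else 0) + (if ct e = w then φ e else 0)) =
      (if pr (cs e) = u then φ e else 0) + (if pr (ct e) = u then φ e else 0) := by
    intro e
    rw [sum_add_distrib, sum_ite_eq, sum_ite_eq]
    simp only [mem_filter, mem_univ, true_and]
  rw [sum_comm, sum_congr rfl (fun e _ => h4 e), Fintype.sum_sum_type] at h3
  have h5 : ∑ q : {p : Fin m × Fin m // p.1 < p.2},
      ((if pr (cs (Sum.inr q : CE m)) = u then φ (Sum.inr q) else 0) +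
        (if pr (ct (Sum.inr q : CE m)) = u then φ (Sum.inr q) else 0)) = 0 := by
    refine sum_eq_zero fun q _ => ?_
    change (if (0 : Fin 18) = u then φ (Sum.inr q) else 0) +
      (if (0 : Fin 18) = u then φ (Sum.inr q) else 0) = 0
    by_cases hu : (0 : Fin 18) = u
    · rw [if_pos hu]; exact addF _
    · rw [if_neg hu, add_zero]
  rw [h5, add_zero] at h3
  have h6 : ∀ e : Fin 27, (if pr (cs (Sum.inl e : CE m)) = u then φ (Sum.inl e) else 0) +
      (if pr (ct (Sum.inl e : CE m)) = u then φ (Sum.inl e) else 0) =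
      (if es e = u then φ (Sum.inl e) else 0) + (if et e = u then φ (Sum.inl e) else 0) := by
    intro e
    change (if pr (pt (es e) : CV m) = u then φ (Sum.inl e) else 0) +
      (if pr (pt (et e) : CV m) = u then φ (Sum.inl e) else 0) = _
    rw [pr_pt, pr_pt]
  rw [sum_congr rfl (fun e _ => h6 e)] at h3
  exact h3

theorem ccardV : Fintype.card (CV m) = m + 17 := by
  have h : Fintype.card {u : Fin 18 // u ≠ 0} = 17 := by decide
  rw [Fintype.card_sum, Fintype.card_fin, h, add_comm]

omit [NeZero m] in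
theorem ccardE : Fintype.card (CE m) = m.choose 2 + 27 := by
  have h : Fintype.card {p : Fin m × Fin m // p.1 < p.2} = m.choose 2 := by
    have h0 : m.choose 2 = (powersetCard 2 (univ : Finset (Fin m))).card := by
      rw [card_powersetCard, card_univ, Fintype.card_fin]
    rw [h0, Fintype.card_subtype]
    refine card_bij (fun p _ => {p.1, p.2}) ?_ ?_ ?_
    · intro p hp
      rw [mem_filter] at hp
      rw [mem_powersetCard]
      exact ⟨subset_univ _, card_pair (ne_of_lt hp.2)⟩
    · intro p hp q hq h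
      rw [mem_filter] at hp hq
      have h1 : p.1 ∈ ({q.1, q.2} : Finset (Fin m)) := by rw [← h]; simp
      have h2 : p.2 ∈ ({q.1, q.2} : Finset (Fin m)) := by rw [← h]; simp
      rw [mem_insert, mem_singleton] at h1 h2
      rcases h1 with h1 | h1 <;> rcases h2 with h2 | h2
      · exact absurd (h1.trans h2.symm) (ne_of_lt hp.2)
      · exact Prod.ext h1 h2
      · have h3 := hp.2
        rw [h1, h2] at h3
        exact absurd hq.2 (not_lt.2 h3.le)
      · exact absurd (h1.trans h2.symm) (ne_of_lt hp.2)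
    · intro T hT
      rw [mem_powersetCard] at hT
      obtain ⟨a, b, hab, rfl⟩ := card_eq_two.1 hT.2
      rcases lt_or_gt_of_ne hab with h | h
      · exact ⟨(a, b), mem_filter.2 ⟨mem_univ _, h⟩, rfl⟩
      · exact ⟨(b, a), mem_filter.2 ⟨mem_univ _, h⟩, pair_comm _ _⟩
  rw [Fintype.card_sum, Fintype.card_fin, h, add_comm]

theorem cloop (e : CE m) : cs e ≠ ct e := by
  rcases e with e | ⟨p, hp⟩
  · intro h
    have h1 := congrArg pr h
    change pr (pt (es e) : CV m) = pr (pt (et e) : CV m) at h1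
    rw [pr_pt, pr_pt] at h1
    exact (inc_facts _ e).1 ⟨rfl, h1.symm⟩
  · intro h
    exact absurd hp (by rw [show p.1 = p.2 from Sum.inr_injective h]; exact lt_irrefl _)

theorem cpar (e e' : CE m)
    (h : (cs e = cs e' ∧ ct e = ct e') ∨ (cs e = ct e' ∧ ct e = cs e')) : e = e' := by
  have key : ∀ e e' : Fin 27, (es e = es e' ∧ et e = et e') ∨
      (es e = et e' ∧ et e = es e') → e = e' := by decide
  have hne : ∀ e : Fin 27, es e ≠ et e := fun e h1 => (inc_facts _ e).1 ⟨rfl, h1.symm⟩
  have hpr : (pr (cs e) = pr (cs e') ∧ pr (ct e) = pr (ct e')) ∨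
      (pr (cs e) = pr (ct e') ∧ pr (ct e) = pr (cs e')) := by
    rcases h with ⟨h1, h2⟩ | ⟨h1, h2⟩
    · exact Or.inl ⟨congrArg pr h1, congrArg pr h2⟩
    · exact Or.inr ⟨congrArg pr h1, congrArg pr h2⟩
  have hl : ∀ e : Fin 27, pr (cs (Sum.inl e : CE m)) = es e ∧ pr (ct (Sum.inl e : CE m)) = et e :=
    fun e => ⟨pr_pt _, pr_pt _⟩
  have hr : ∀ q, pr (cs (Sum.inr q : CE m)) = 0 ∧ pr (ct (Sum.inr q : CE m)) = 0 :=
    fun q => ⟨rfl, rfl⟩
  rcases e with e | q <;> rcases e' with e' | q'
  · rw [(hl e).1, (hl e).2, (hl e').1, (hl e').2] at hpr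
    rw [key e e' hpr]
  · rw [(hl e).1, (hl e).2, (hr q').1, (hr q').2] at hpr
    exfalso
    rcases hpr with ⟨h1, h2⟩ | ⟨h1, h2⟩ <;> exact hne e (h1.trans h2.symm)
  · rw [(hl e').1, (hl e').2, (hr q).1, (hr q).2] at hpr
    exfalso
    rcases hpr with ⟨h1, h2⟩ | ⟨h1, h2⟩
    · exact hne e' (h1.symm.trans h2)
    · exact hne e' (h2.symm.trans h1)
  · obtain ⟨⟨p1, p2⟩, hp⟩ := q
    obtain ⟨⟨q1, q2⟩, hq⟩ := q'
    simp only [cs, ct, Sum.inr.injEq] at h
    rcases h with ⟨a2, a4⟩ | ⟨a2, a4⟩
    · subst a2; subst a4; rfl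
    · exfalso
      subst a2
      subst a4
      exact absurd (show p1 < p2 from hp) (not_lt.2 (le_of_lt (show p2 < p1 from hq)))

/-- the edges of the complete graph lie in triangles -/
theorem cshort (hm : 3 ≤ m) (q : {p : Fin m × Fin m // p.1 < p.2}) :
    InShortCircuit (cs (m := m)) ct (Sum.inr q) := by
  obtain ⟨⟨a, b⟩, hab⟩ := q
  have hab' : a ≠ b := ne_of_lt hab
  obtain ⟨c, hc⟩ : ∃ c, c ∉ ({a, b} : Finset (Fin m)) := by
    by_contra hcon
    push Not at hcon
    have : (univ : Finset (Fin m)) ⊆ {a, b} := fun c _ => hcon c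
    have := card_le_card this
    rw [card_univ, Fintype.card_fin, card_pair hab'] at this
    omega
  rw [mem_insert, mem_singleton, not_or] at hc
  have e0 : (Sum.inr ⟨(a, b), hab⟩ : CE m) = mk a b hab' := by
    unfold mk
    congr 2
    rw [min_eq_left (le_of_lt hab), max_eq_right (le_of_lt hab)]
  have hv : Function.Injective (![Sum.inr a, Sum.inr b, Sum.inr c] : Fin 3 → CV m) := by
    intro i j hij
    fin_cases i <;> fin_cases j <;> simp_all [Ne.symm, eq_comm]
  refine ⟨2, ![Sum.inr a, Sum.inr b, Sum.inr c],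
    ![mk a b hab', mk b c (fun h => hc.2 h.symm), mk c a hc.1], by norm_num, ⟨hv, ?_, ?_⟩,
    0, e0.symm⟩
  · have hd : ∀ (x y z w : Fin m) (h : x ≠ y) (h' : z ≠ w), mk x y h = mk z w h' →
        x = z ∨ x = w := by
      intro x y z w h h' heq
      have k1 := mk_ends x y h
      have k2 := mk_ends z w h'
      rw [heq] at k1
      rcases k1 with ⟨k1, _⟩ | ⟨_, k1⟩ <;> rcases k2 with ⟨k2, k3⟩ | ⟨k2, k3⟩
      · left; exact Sum.inr_injective (k1.symm.trans k2)
      · right; exact Sum.inr_injective (k1.symm.trans k2)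
      · right; exact Sum.inr_injective (k1.symm.trans k3)
      · left; exact Sum.inr_injective (k1.symm.trans k3)
    have hbc : b ≠ c := fun h => hc.2 h.symm
    have r1 : mk a b hab' ≠ mk b c hbc := fun h => by
      rcases hd a b b c hab' hbc h with h | h
      · exact hab' h
      · exact hc.1 h.symm
    have r2 : mk c a hc.1 ≠ mk a b hab' := fun h => by
      rcases hd c a a b hc.1 hab' h with h | h
      · exact hc.1 h
      · exact hc.2 h
    have r3 : mk b c hbc ≠ mk c a hc.1 := fun h => by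
      rcases hd b c c a hbc hc.1 h with h | h
      · exact hc.2 h.symm
      · exact hab' h.symm
    intro i j hij
    fin_cases i <;> fin_cases j <;> first | rfl | skip
    · exact absurd hij r1
    · exact absurd hij.symm r2
    · exact absurd hij.symm r1
    · exact absurd hij r3
    · exact absurd hij r2
    · exact absurd hij.symm r3
  · intro i
    fin_cases i
    · exact mk_ends _ _ hab'
    · exact mk_ends _ _ (fun h => hc.2 h.symm)
    · exact mk_ends _ _ hc.1

end Q114.TC
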