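import Pool.Agent.Q114.TC.Size
import Pool.Agent.Q116.FF.Wf

/-!
# Quotients of graphs with few edges outside short circuits, and of large simple graphs
-/

set_option autoImplicit false

namespace Q114.TC

open Finset Pool.Agent.TH362.TF Pool.Agent.TH362.TF.Four Q116.FF

set_option linter.unusedSectionVars false

/-- `u` and `v` are joined by a path all of whose edges lie in circuits of length at most four. -/
def ShortLinked {V E : Type} (s t : E → V) (u v : V) : Prop :=
  Relation.ReflTransGen
    (fun x y => ∃ e, InShortCircuit s t e ∧ ((s e = x ∧ t e = y) ∨ (s e = y ∧ t e = x))) u v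

variable {V E : Type} [Fintype V] [DecidableEq V] [DecidableEq E]

theorem linked_eq {s t : E → V} {S : Finset E} (f : V → V)
    (hs : Sm (fun e => f (s e)) (fun e => f (t e)) S) (hS : ∀ e, e ∈ S) {u v : V}
    (h : ShortLinked s t u v) : f u = f v := by
  induction h with
  | refl => rfl
  | tail _ h2 ih =>
    obtain ⟨e, he, h3 | h3⟩ := h2
    · rw [ih, ← h3.1, ← h3.2]; exact short_loop f hs hS he
    · rw [ih, ← h3.1, ← h3.2]; exact (short_loop f hs hS he).symm

/-- a quotient with at most 17 vertices has at most 16 odd vertices -/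
theorem odd_of_image {s t : E → V} {S : Finset E} (f : V → V)
    (hs : Sm (fun e => f (s e)) (fun e => f (t e)) S) (h : (univ.image f).card ≤ 17) :
    (odd (fun e => f (s e)) (fun e => f (t e)) S).card ≤ 16 := by
  have h2 := card_le_card (odd_sub hs (A := univ.image f) (fun e _ =>
    ⟨mem_image_of_mem f (mem_univ _), mem_image_of_mem f (mem_univ _)⟩))
  have h3 : (oddV (gr (fun e => f (s e)) (fun e => f (t e)) S) (univ.image f)).card ≤
      (univ.image f).card := card_le_card fun v hv => (mem_oddV.1 hv).1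
  obtain ⟨r, hr⟩ := even_card_odd (fun e => f (s e)) (fun e => f (t e)) S
  omega

theorem dd_of_short {s t : E → V} {S : Finset E} (hS : ∀ e, e ∈ S) (h1 : N1 s t S)
    (T : Finset E) (hT : T.card ≤ 26) (h : ∀ e ∉ T, InShortCircuit s t e) : DD s t S := by
  refine ⟨h1, fun f hs => odd_of_nl ?_ ?_⟩
  · exact quot_n1 (Finset.Subset.refl S) (fun e h3 h4 => absurd h3 h4) h1
  · refine le_trans (card_le_card ?_) hT
    intro e he
    rw [mem_filter] at he
    by_contra hc
    exact he.2 (short_loop f hs hS (h e hc))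

theorem dd_of_parts {s t : E → V} {S : Finset E} (hS : ∀ e, e ∈ S) (h1 : N1 s t S)
    (R : Finset V) (hR : R.card ≤ 17) (h : ∀ v, ∃ r ∈ R, ShortLinked s t r v) : DD s t S := by
  refine ⟨h1, fun f hs => odd_of_image f hs ?_⟩
  refine le_trans (card_le_card ?_) ((card_image_le (s := R) (f := f)).trans hR)
  intro x hx
  obtain ⟨v, _, rfl⟩ := mem_image.1 hx
  obtain ⟨r, hr, h2⟩ := h v
  rw [← linked_eq f hs hS h2]
  exact mem_image_of_mem f hr

theorem dd_of_size {s t : E → V} {S : Finset E} (h1 : N1 s t S) (hl : ∀ e, s e ≠ t e)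
    (hp : ∀ e e', (s e = s e' ∧ t e = t e') ∨ (s e = t e' ∧ t e = s e') → e = e')
    (hn : 24 ≤ Fintype.card V) (hS : (Fintype.card V - 17).choose 2 + 37 ≤ S.card) :
    DD s t S := by
  refine ⟨h1, fun f hs => ?_⟩
  have hV : Nonempty V := Fintype.card_pos_iff.1 (by omega)
  have hN : N1 (fun e => f (s e)) (fun e => f (t e)) S :=
    quot_n1 (Finset.Subset.refl S) (fun e h3 h4 => absurd h3 h4) h1
  set s' := fun e => f (s e) with hs'
  set t' := fun e => f (t e) with ht'
  set H := gr s' t' S with hH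
  set A := univ.image f with hA
  have hin : ∀ {a b : V}, H.Adj a b → a ∈ A := by
    rintro a b ⟨_, e, he, k⟩
    rcases k with ⟨h1, _⟩ | ⟨_, h1⟩
    · exact h1 ▸ mem_image_of_mem f (mem_univ _)
    · exact h1 ▸ mem_image_of_mem f (mem_univ _)
  have hnb : ∀ v, Q116.FF.nb H univ v = Q116.FF.nb H A v := by
    intro v
    ext w
    rw [mem_nb, mem_nb]
    exact ⟨fun h => ⟨hin h.2.symm, h.2⟩, fun h => ⟨mem_univ _, h.2⟩⟩
  have hcut : ∀ v, (cut s' t' S (fun u => decide (u = v))).card = (Q116.FF.nb H A v).card := by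
    intro v
    rw [cut_card hs v, hnb]
  have hsum : ∑ v ∈ A, (Q116.FF.nb H A v).card = 2 * nl s' t' S := by
    rw [← sum_cut s' t' S]
    simp_rw [hcut]
    refine sum_subset (subset_univ A) fun v _ hv => ?_
    rw [card_eq_zero, eq_empty_iff_forall_notMem]
    intro w hw
    exact hv (hin (mem_nb.1 hw).2)
  have hodd : ∀ v, v ∈ odd s' t' S ↔ (Q116.FF.nb H A v).card % 2 = 1 := by
    intro v
    rw [odd_iff_cut, hcut]
  have hoA : odd s' t' S ⊆ A := by
    intro v hv
    rw [hodd] at hv
    obtain ⟨w, hw⟩ := card_pos.1 (show 0 < (Q116.FF.nb H A v).card by omega)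
    exact hin (mem_nb.1 hw).2
  by_contra hcon
  push Not at hcon
  obtain ⟨r, hr⟩ := even_card_odd s' t' S
  have hk : 18 ≤ A.card := by
    have := card_le_card hoA
    omega
  have hkn : A.card ≤ Fintype.card V := card_image_le
  have hsq := sum_sq hs.girth A
  rw [← hH] at hsq
  have hcs : (2 * nl s' t' S) ^ 2 ≤ A.card * (A.card * (A.card - 1)) := by
    rw [← hsum]
    refine le_trans sq_sum_le_card_mul_sum_sq (Nat.mul_le_mul_left _ ?_)
    rw [Nat.mul_sub, mul_one]
    omega
  have h36 : A.card = 18 → nl s' t' S ≤ 36 := by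
    intro h18
    have hAo : odd s' t' S = A := eq_of_subset_of_card_le hoA (by omega)
    have hd : ∀ v ∈ A, 8 * (Q116.FF.nb H A v).card ≤ (Q116.FF.nb H A v).card ^ 2 + 15 := by
      intro v hv
      rw [← hAo, hodd] at hv
      have h3 : (Q116.FF.nb H A v).card ≠ 1 := by
        rw [← hcut]; exact hN _
      have h4 : 3 ≤ (Q116.FF.nb H A v).card := by omega
      obtain ⟨a, ha⟩ : ∃ a, (Q116.FF.nb H A v).card = 2 * a + 3 :=
        ⟨((Q116.FF.nb H A v).card - 3) / 2, by omega⟩
      rw [ha]
      rcases Nat.eq_zero_or_pos a with rfl | hapos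
      · norm_num
      · nlinarith
    have h5 := sum_le_sum hd
    rw [← mul_sum, hsum, sum_add_distrib, sum_const, h18, smul_eq_mul] at h5
    rw [h18] at hsq
    omega
  have h6 := card_split (S := S) hl hp f hV
  have h7 := ar (Fintype.card V) A.card (nl s' t' S) hn hk hkn hcs h36
  rw [← hA, ← hs', ← ht'] at h6
  omega

/-- the general form of `dd_of_short` -/
theorem dd_of_pred {s t : E → V} {S : Finset E} (h1 : N1 s t S) (P : E → Prop)
    (hP : ∀ f : V → V, Sm (fun e => f (s e)) (fun e => f (t e)) S → ∀ e, P e → f (s e) = f (t e))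
    (T : Finset E) (hT : T.card ≤ 26) (h : ∀ e ∉ T, P e) : DD s t S := by
  refine ⟨h1, fun f hs => odd_of_nl ?_ ?_⟩
  · exact quot_n1 (Finset.Subset.refl S) (fun e h3 h4 => absurd h3 h4) h1
  · refine le_trans (card_le_card ?_) hT
    intro e he
    rw [mem_filter] at he
    by_contra hc
    exact he.2 (hP f hs e (h e hc))

/-- the general form of `dd_of_parts` -/
theorem dd_of_rel {s t : E → V} {S : Finset E} (h1 : N1 s t S) (Q : V → V → Prop)
    (hQ : ∀ f : V → V, Sm (fun e => f (s e)) (fun e => f (t e)) S → ∀ u v, Q u v → f u = f v)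
    (R : Finset V) (hR : R.card ≤ 17) (h : ∀ v, ∃ r ∈ R, Relation.ReflTransGen Q r v) :
    DD s t S := by
  refine ⟨h1, fun f hs => odd_of_image f hs ?_⟩
  refine le_trans (card_le_card ?_) ((card_image_le (s := R) (f := f)).trans hR)
  intro x hx
  obtain ⟨v, _, rfl⟩ := mem_image.1 hx
  obtain ⟨r, hr, h2⟩ := h v
  have h3 : ∀ w, Relation.ReflTransGen Q r w → f r = f w := by
    intro w hw
    induction hw with
    | refl => rfl
    | tail _ h2 ih => exact ih.trans (hQ f hs _ _ h2)
  rw [← h3 v h2]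
  exact mem_image_of_mem f hr

end Q114.TC
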