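import Pool.Agent.Q116.FF.Red

/-!
# Multigraphs most of whose edges lie in circuits of length at most four

`Sm` quotients: an edge in a circuit of length at most four becomes a loop.
-/

set_option autoImplicit false

namespace Q114.TC

open Finset Pool.Agent.TH362.TF Pool.Agent.TH362.TF.Four Q116.FF

set_option linter.unusedSectionVars false

variable {V E : Type}

/-- `c 0, …, c k` are the edges of a circuit of length `k + 1` with the vertices
`v 0, …, v k`: the vertices are distinct, the edges are distinct, and `c i` joins `v i` and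
`v (i+1)` (indices modulo `k + 1`; a loop is a circuit of length one). -/
def IsCircuit (s t : E → V) {k : ℕ} (v : Fin (k + 1) → V) (c : Fin (k + 1) → E) : Prop :=
  Function.Injective v ∧ Function.Injective c ∧
    ∀ i, (s (c i) = v i ∧ t (c i) = v (i + 1)) ∨ (s (c i) = v (i + 1) ∧ t (c i) = v i)

/-- The edge `e` lies in a circuit of length at most four. -/
def InShortCircuit (s t : E → V) (e : E) : Prop :=
  ∃ (k : ℕ) (v : Fin (k + 1) → V) (c : Fin (k + 1) → E), k + 1 ≤ 4 ∧ IsCircuit s t v c ∧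
    ∃ i, c i = e

variable [Fintype V] [DecidableEq V] [DecidableEq E]

theorem two_eq {s t : E → V} {S : Finset E} (h : Sm s t S) {a b : V} {e e' : E} (he : e ∈ S)
    (he' : e' ∈ S) (hne : e ≠ e') (k : Ends s t a b e) (k' : Ends s t b a e') : a = b := by
  by_contra hab
  exact hne (h.par a b e e' hab he he' k (Or.symm k'))

theorem three_eq {s t : E → V} {S : Finset E} (h : Sm s t S) {a b c : V} {e1 e2 e3 : E}
    (h1 : e1 ∈ S) (h2 : e2 ∈ S) (h3 : e3 ∈ S) (n12 : e1 ≠ e2) (n13 : e1 ≠ e3)
    (k1 : Ends s t a b e1) (k2 : Ends s t b c e2) (k3 : Ends s t c a e3) : a = b := by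
  by_contra hab
  by_cases hbc : b = c
  · subst hbc
    exact hab (two_eq h h1 h3 n13 k1 k3)
  by_cases hca : c = a
  · subst hca
    exact hab (two_eq h h1 h2 n12 k1 k2)
  exact h.tri a b c hab hbc hca e1 h1 e2 h2 e3 h3 k1 k2 k3

theorem four_eq {s t : E → V} {S : Finset E} (h : Sm s t S) {a b c d : V} {e1 e2 e3 e4 : E}
    (h1 : e1 ∈ S) (h2 : e2 ∈ S) (h3 : e3 ∈ S) (h4 : e4 ∈ S) (n12 : e1 ≠ e2) (n13 : e1 ≠ e3)
    (n14 : e1 ≠ e4)
    (k1 : Ends s t a b e1) (k2 : Ends s t b c e2) (k3 : Ends s t c d e3) (k4 : Ends s t d a e4) :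
    a = b := by
  by_contra hab
  by_cases hbc : b = c
  · subst hbc
    exact hab (three_eq h h1 h3 h4 n13 n14 k1 k3 k4)
  by_cases hcd : c = d
  · subst hcd
    exact hab (three_eq h h1 h2 h4 n12 n14 k1 k2 k4)
  by_cases hda : d = a
  · subst hda
    exact hab (three_eq h h1 h2 h3 n12 n13 k1 k2 k3)
  by_cases hac : a = c
  · subst hac
    exact hab (two_eq h h1 h2 n12 k1 k2)
  by_cases hbd : b = d
  · subst hbd
    exact hab (two_eq h h1 h4 n14 k1 k4)
  exact h.quad a b c d hab hbc hcd hda hac hbd e1 h1 e2 h2 e3 h3 e4 h4 k1 k2 k3 k4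

/-- an edge in a circuit of length at most four becomes a loop in a quotient without circuits of
length two, three and four -/
theorem short_loop {s t : E → V} {S : Finset E} (f : V → V)
    (hs : Sm (fun e => f (s e)) (fun e => f (t e)) S) (hS : ∀ e, e ∈ S) {e : E}
    (he : InShortCircuit s t e) : f (s e) = f (t e) := by
  obtain ⟨k, v, c, hk, ⟨hv, hc, hj⟩, i, rfl⟩ := he
  have hE : ∀ j, Ends (fun e => f (s e)) (fun e => f (t e)) (f (v j)) (f (v (j + 1))) (c j) := by
    intro j
    rcases hj j with ⟨h1, h2⟩ | ⟨h1, h2⟩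
    · exact Or.inl ⟨congrArg f h1, congrArg f h2⟩
    · exact Or.inr ⟨congrArg f h1, congrArg f h2⟩
  have hfin : f (v i) = f (v (i + 1)) → f (s (c i)) = f (t (c i)) := by
    intro h
    rcases hE i with ⟨h1, h2⟩ | ⟨h1, h2⟩
    · exact (h1.trans h).trans h2.symm
    · exact (h1.trans h.symm).trans h2.symm
  apply hfin
  clear hfin
  have hk' : k = 0 ∨ k = 1 ∨ k = 2 ∨ k = 3 := by omega
  rcases hk' with rfl | rfl | rfl | rfl
  · have h1 : ∀ j : Fin 1, j + 1 = j := by decide
    exact (congrArg (fun j => f (v j)) (h1 i)).symm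
  · have hne : ∀ x y : Fin 2, x ≠ y → c x ≠ c y := fun x y h h' => h (hc h')
    have m1 : ∀ j : Fin 2, j ≠ j + 1 := by decide
    have m2 : ∀ j : Fin 2, j + 1 + 1 = j := by decide
    have k2 := hE (i + 1)
    rw [m2 i] at k2
    exact two_eq hs (hS _) (hS _) (hne _ _ (m1 i)) (hE i) k2
  · have hne : ∀ x y : Fin 3, x ≠ y → c x ≠ c y := fun x y h h' => h (hc h')
    have m1 : ∀ j : Fin 3, j ≠ j + 1 ∧ j ≠ j + 1 + 1 := by decide
    have m2 : ∀ j : Fin 3, j + 1 + 1 + 1 = j := by decide
    have k3 := hE (i + 1 + 1)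
    rw [m2 i] at k3
    exact three_eq hs (hS _) (hS _) (hS _) (hne _ _ (m1 i).1) (hne _ _ (m1 i).2) (hE i)
      (hE (i + 1)) k3
  · have hne : ∀ x y : Fin 4, x ≠ y → c x ≠ c y := fun x y h h' => h (hc h')
    have m1 : ∀ j : Fin 4, j ≠ j + 1 ∧ j ≠ j + 1 + 1 ∧ j ≠ j + 1 + 1 + 1 := by decide
    have m2 : ∀ j : Fin 4, j + 1 + 1 + 1 + 1 = j := by decide
    have k4 := hE (i + 1 + 1 + 1)
    rw [m2 i] at k4
    exact four_eq hs (hS _) (hS _) (hS _) (hS _) (hne _ _ (m1 i).1) (hne _ _ (m1 i).2.1)
      (hne _ _ (m1 i).2.2) (hE i) (hE (i + 1)) (hE (i + 1 + 1)) k4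

theorem sum_cut (s t : E → V) (S : Finset E) :
    ∑ v, (cut s t S (fun u => decide (u = v))).card = 2 * nl s t S := by
  unfold cut nl
  simp_rw [card_filter]
  rw [sum_comm, mul_sum]
  refine sum_congr rfl fun e _ => ?_
  by_cases h : s e = t e
  · rw [if_neg (by simpa using h), mul_zero]
    refine sum_eq_zero fun v _ => ?_
    rw [if_neg (by rw [h]; simp)]
  · rw [if_pos h, mul_one, ← card_filter]
    have h1 : univ.filter (fun v => decide (s e = v) ≠ decide (t e = v)) = {s e, t e} := by
      ext v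
      rw [mem_filter, mem_insert, mem_singleton]
      constructor
      · rintro ⟨_, hv⟩
        by_contra hc
        push Not at hc
        exact hv (by rw [decide_eq_false (fun h => hc.1 h.symm),
          decide_eq_false (fun h => hc.2 h.symm)])
      · rintro (rfl | rfl)
        · exact ⟨mem_univ _, by simpa using fun h' : t e = s e => h h'.symm⟩
        · exact ⟨mem_univ _, by simp [h]⟩
    rw [h1, card_pair h]

theorem even_card_odd (s t : E → V) (S : Finset E) : Even (odd s t S).card := by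
  have h := sum_cut s t S
  rw [← ZMod.natCast_eq_zero_iff_even]
  have h1 : ((2 * nl s t S : ℕ) : ZMod 2) = 0 := by
    rw [ZMod.natCast_eq_zero_iff_even]; exact even_two_mul _
  rw [← h, Nat.cast_sum] at h1
  rw [← h1, ← sum_filter_add_sum_filter_not univ (fun v => v ∈ odd s t S), card_eq_sum_ones,
    Nat.cast_sum]
  have h2 : ∑ v with v ∉ odd s t S, ((cut s t S (fun u => decide (u = v))).card : ZMod 2) = 0 := by
    refine sum_eq_zero fun v hv => ?_
    rw [mem_filter, odd_iff_cut] at hv
    rw [ZMod.natCast_eq_zero_iff_even, Nat.even_iff]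
    omega
  rw [h2, add_zero, filter_mem_eq_inter, univ_inter]
  refine sum_congr rfl fun v hv => ?_
  rw [odd_iff_cut] at hv
  rw [Nat.cast_one]
  symm
  have h3 : ((cut s t S (fun u => decide (u = v))).card : ZMod 2) =
      ((1 : ℕ) : ZMod 2) := by
    rw [ZMod.natCast_eq_natCast_iff]
    exact hv
  rw [h3, Nat.cast_one]

/-- at most 26 edges that are not loops: at most 16 odd vertices -/
theorem odd_of_nl {s t : E → V} {S : Finset E} (h1 : N1 s t S) (h : nl s t S ≤ 26) :
    (odd s t S).card ≤ 16 := by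
  have h2 := sum_cut s t S
  have h3 : (odd s t S).card • 3 ≤
      ∑ v ∈ odd s t S, (cut s t S (fun u => decide (u = v))).card := by
    refine card_nsmul_le_sum _ _ _ fun v hv => ?_
    rw [odd_iff_cut] at hv
    have := h1 (fun u => decide (u = v))
    omega
  have h4 : ∑ v ∈ odd s t S, (cut s t S (fun u => decide (u = v))).card ≤
      ∑ v, (cut s t S (fun u => decide (u = v))).card :=
    sum_le_sum_of_subset (subset_univ _)
  obtain ⟨r, hr⟩ := even_card_odd s t S
  rw [smul_eq_mul] at h3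
  omega

/-- at most 26 edges in no circuit of length at most four -/
theorem of_short {s t : E → V} {S : Finset E} (hS : ∀ e, e ∈ S) (h1 : N1 s t S)
    (T : Finset E) (hT : T.card ≤ 26) (h : ∀ e ∉ T, InShortCircuit s t e) :
    NZ s t S ∨ PQ s t S := by
  obtain ⟨f, hf, hs⟩ := exists_red s t S
  refine concl h1 f hf (odd_of_nl ?_ ?_)
  · exact quot_n1 (Finset.Subset.refl S) (fun e h3 h4 => absurd h3 h4) h1
  · refine le_trans (card_le_card ?_) hT
    intro e he
    rw [mem_filter] at he
    by_contra hc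
    exact he.2 (short_loop f hs hS (h e hc))

end Q114.TC
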