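import Pool.Agent.Q114.TC.Short

/-!
# Simple graphs with more than `C(n - 17, 2) + 36` edges
-/

set_option autoImplicit false

namespace Q114.TC

open Finset Pool.Agent.TH362.TF Pool.Agent.TH362.TF.Four Q116.FF

set_option linter.unusedSectionVars false

variable {V E : Type} [Fintype V] [DecidableEq V] [DecidableEq E]

theorem choose_add (q i : ℕ) : (q + i).choose 2 = q.choose 2 + q * i + i.choose 2 := by
  induction i with
  | zero => simp
  | succ i ih =>
    rw [← add_assoc, Nat.choose_succ_succ' (q + i) 1, Nat.choose_succ_succ' i 1, ih,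
      Nat.choose_one_right, Nat.choose_one_right]
    ring

theorem two_choose (i : ℕ) : 2 * i.choose 2 + i = i * i := by
  induction i with
  | zero => simp
  | succ i ih =>
    rw [Nat.choose_succ_succ' i 1, Nat.choose_one_right]
    nlinarith

theorem ar' (q i m : ℕ) (hq : 1 ≤ q) (h7 : 7 ≤ q + i) (hi : 1 ≤ i)
    (hm : (2 * m) ^ 2 ≤ (18 + i) * ((18 + i) * (17 + i))) : m ≤ q * i + i.choose 2 + 36 := by
  by_contra hc
  push Not at hc
  have hch := two_choose i
  rcases Nat.lt_or_ge i 6 with h | h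
  · have h1 : 37 + (7 - i) * i + i.choose 2 ≤ m := by
      have : (7 - i) * i ≤ q * i := Nat.mul_le_mul_right _ (by omega)
      omega
    have h2 : (2 * (37 + (7 - i) * i + i.choose 2)) ^ 2 ≤ (2 * m) ^ 2 :=
      Nat.pow_le_pow_left (by omega) 2
    have h3 := h2.trans hm
    clear h2 hm hc hch h1
    interval_cases i <;> simp [Nat.choose] at h3
  · have h1 : i * i + i + 74 ≤ 2 * m := by
      have : i ≤ q * i := Nat.le_mul_of_pos_left i hq
      omega
    have h2 : (i * i + i + 74) ^ 2 ≤ (2 * m) ^ 2 := Nat.pow_le_pow_left h1 2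
    have h3 := h2.trans hm
    obtain ⟨j, rfl⟩ := Nat.exists_eq_add_of_le h
    clear h2 hm hc hch h1 h7
    ring_nf at h3
    nlinarith [sq_nonneg (j : ℤ), pow_pos (show 0 < j + 1 by omega) 3]

theorem ar (n k m : ℕ) (hn : 24 ≤ n) (h18 : 18 ≤ k) (hk : k ≤ n)
    (hm : (2 * m) ^ 2 ≤ k * (k * (k - 1))) (h36 : k = 18 → m ≤ 36) :
    (n + 1 - k).choose 2 + m ≤ (n - 17).choose 2 + 36 := by
  rcases eq_or_lt_of_le h18 with h | h
  · have h1 := h36 h.symm
    subst h
    have : n + 1 - 18 = n - 17 := by omega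
    rw [this]; omega
  · obtain ⟨i, rfl⟩ := Nat.exists_eq_add_of_le h18
    obtain ⟨q', rfl⟩ := Nat.exists_eq_add_of_le hk
    have h1 : 18 + i + q' + 1 - (18 + i) = q' + 1 := by omega
    have h2 : 18 + i + q' - 17 = (q' + 1) + i := by omega
    have h3 : 18 + i - 1 = 17 + i := by omega
    rw [h3] at hm
    rw [h1, h2, choose_add (q' + 1) i]
    have := ar' (q' + 1) i m (by omega) (by omega) (by omega) hm
    omega

theorem sum_choose (A : Finset V) (hA : A.Nonempty) (g : V → ℕ) (hg : ∀ x ∈ A, 1 ≤ g x) :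
    ∑ x ∈ A, (g x).choose 2 ≤ (∑ x ∈ A, g x + 1 - A.card).choose 2 := by
  induction hA using Finset.Nonempty.cons_induction with
  | singleton a => simp
  | cons a s ha hs ih =>
    have ih' := ih fun x hx => hg x (mem_cons_of_mem hx)
    rw [sum_cons, sum_cons, card_cons]
    have h1 : s.card ≤ ∑ x ∈ s, g x := by
      have : ∑ x ∈ s, 1 ≤ ∑ x ∈ s, g x := sum_le_sum fun x hx => hg x (mem_cons_of_mem hx)
      simpa using this
    obtain ⟨b, hb⟩ := Nat.exists_eq_add_of_le (hg a (mem_cons_self a s))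
    have h2 : g a + ∑ x ∈ s, g x + 1 - (s.card + 1) = (∑ x ∈ s, g x + 1 - s.card) + b := by
      omega
    rw [h2, choose_add]
    have h3 : (g a).choose 2 = b + b.choose 2 := by
      rw [hb, add_comm 1 b, Nat.choose_succ_succ' b 1, Nat.choose_one_right]
    have h4 : b ≤ (∑ x ∈ s, g x + 1 - s.card) * b := Nat.le_mul_of_pos_left b (by omega)
    omega

/-- the edges inside a class -/
theorem inside {s t : E → V} {S : Finset E} (hl : ∀ e, s e ≠ t e)
    (hp : ∀ e e', (s e = s e' ∧ t e = t e') ∨ (s e = t e' ∧ t e = s e') → e = e')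
    (f : V → V) (x : V) :
    (S.filter (fun e => f (s e) = x ∧ f (t e) = x)).card ≤
      (univ.filter (fun v => f v = x)).card.choose 2 := by
  rw [← card_powersetCard]
  refine card_le_card_of_injOn (fun e => {s e, t e}) ?_ ?_
  · intro e he
    rw [mem_coe, mem_filter] at he
    rw [mem_coe, mem_powersetCard]
    refine ⟨?_, card_pair (hl e)⟩
    intro v hv
    rw [mem_insert, mem_singleton] at hv
    rw [mem_filter]
    rcases hv with rfl | rfl
    · exact ⟨mem_univ _, he.2.1⟩
    · exact ⟨mem_univ _, he.2.2⟩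
  · intro e _ e' _ h
    simp only at h
    apply hp
    have h1 : s e ∈ ({s e', t e'} : Finset V) := by rw [← h]; simp
    have h2 : t e ∈ ({s e', t e'} : Finset V) := by rw [← h]; simp
    rw [mem_insert, mem_singleton] at h1 h2
    rcases h1 with h1 | h1 <;> rcases h2 with h2 | h2
    · exact absurd (h1.trans h2.symm) (hl e)
    · exact Or.inl ⟨h1, h2⟩
    · exact Or.inr ⟨h1, h2⟩
    · exact absurd (h1.trans h2.symm) (hl e)

theorem card_split {s t : E → V} {S : Finset E} (hl : ∀ e, s e ≠ t e)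
    (hp : ∀ e e', (s e = s e' ∧ t e = t e') ∨ (s e = t e' ∧ t e = s e') → e = e')
    (f : V → V) (hV : Nonempty V) :
    S.card ≤ (Fintype.card V + 1 - (univ.image f).card).choose 2 +
      nl (fun e => f (s e)) (fun e => f (t e)) S := by
  have h1 : (S.filter (fun e => ¬ f (s e) ≠ f (t e))).card =
      ∑ x ∈ univ.image f, (S.filter (fun e => f (s e) = x ∧ f (t e) = x)).card := by
    rw [card_eq_sum_card_fiberwise (f := fun e => f (s e)) (t := univ.image f)
      (fun e _ => mem_coe.2 (mem_image_of_mem f (mem_univ _)))]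
    refine sum_congr rfl fun x _ => ?_
    rw [filter_filter]
    congr 1
    refine filter_congr fun e _ => ?_
    constructor
    · rintro ⟨h2, h3⟩
      rw [not_not] at h2
      exact ⟨h3, h2 ▸ h3⟩
    · rintro ⟨h2, h3⟩
      exact ⟨not_not.2 (h2.trans h3.symm), h2⟩
  have h2 : ∑ x ∈ univ.image f, (S.filter (fun e => f (s e) = x ∧ f (t e) = x)).card ≤
      (∑ x ∈ univ.image f, (univ.filter (fun v => f v = x)).card + 1 -
        (univ.image f).card).choose 2 := by
    refine le_trans (sum_le_sum fun x _ => inside hl hp f x) ?_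
    refine sum_choose _ (univ_nonempty.image f) _ fun x hx => ?_
    obtain ⟨v, _, hv⟩ := mem_image.1 hx
    exact card_pos.2 ⟨v, mem_filter.2 ⟨mem_univ _, hv⟩⟩
  have h3 : ∑ x ∈ univ.image f, (univ.filter (fun v => f v = x)).card = Fintype.card V := by
    rw [← card_univ, card_eq_sum_card_image f univ]
  rw [h3, ← h1] at h2
  have h4 := card_filter_add_card_filter_not (s := S) (fun e => f (s e) ≠ f (t e))
  have h5 : nl (fun e => f (s e)) (fun e => f (t e)) S =
      (S.filter (fun e => f (s e) ≠ f (t e))).card := rfl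
  omega

theorem sum_sq {H : SimpleGraph V} (hG : Girth5 H) (A : Finset V) :
    A.card + ∑ v ∈ A, (nb H A v).card ^ 2 ≤ A.card * A.card := by
  have h1 : ∑ v ∈ A, (1 + ∑ u ∈ nb H A v, (nb H A u).card) ≤ A.card • A.card :=
    sum_le_card_nsmul _ _ _ fun v hv => moore hG hv
  rw [sum_add_distrib, sum_const, smul_eq_mul, mul_one, smul_eq_mul] at h1
  have h2 : ∑ v ∈ A, ∑ u ∈ nb H A v, (nb H A u).card = ∑ v ∈ A, (nb H A v).card ^ 2 := by
    classical
    unfold Q116.FF.nb
    simp_rw [sum_filter]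
    rw [sum_comm]
    refine sum_congr rfl fun u _ => ?_
    rw [← sum_filter, sum_const, smul_eq_mul, sq]
    congr 2
    refine filter_congr fun v _ => ?_
    exact ⟨fun h => h.symm, fun h => h.symm⟩
  rw [h2] at h1
  exact h1

/-- simple graphs with many edges -/
theorem of_size {s t : E → V} {S : Finset E} (h1 : N1 s t S) (hl : ∀ e, s e ≠ t e)
    (hp : ∀ e e', (s e = s e' ∧ t e = t e') ∨ (s e = t e' ∧ t e = s e') → e = e')
    (hn : 24 ≤ Fintype.card V) (hS : (Fintype.card V - 17).choose 2 + 37 ≤ S.card) :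
    NZ s t S ∨ PQ s t S := by
  obtain ⟨f, hf, hs⟩ := exists_red s t S
  refine concl h1 f hf ?_
  have hV : Nonempty V := Fintype.card_pos_iff.1 (by omega)
  have hN : N1 (fun e => f (s e)) (fun e => f (t e)) S :=
    quot_n1 (Finset.Subset.refl S) (fun e h3 h4 => absurd h3 h4) h1
  set s' := fun e => f (s e) with hs'
  set t' := fun e => f (t e) with ht'
  set H := gr s' t' S with hH
  set A := univ.image f with hA
  have hin : ∀ {a b : V}, H.Adj a b → a ∈ A := by
    rintro a b ⟨_, e, he, k⟩
    rcases k with ⟨h1, _⟩ | ⟨_, h1⟩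
    · exact h1 ▸ mem_image_of_mem f (mem_univ _)
    · exact h1 ▸ mem_image_of_mem f (mem_univ _)
  have hnb : ∀ v, nb H univ v = nb H A v := by
    intro v
    ext w
    rw [mem_nb, mem_nb]
    exact ⟨fun h => ⟨hin h.2.symm, h.2⟩, fun h => ⟨mem_univ _, h.2⟩⟩
  have hcut : ∀ v, (cut s' t' S (fun u => decide (u = v))).card = (nb H A v).card := by
    intro v
    rw [cut_card hs v, hnb]
  have hsum : ∑ v ∈ A, (nb H A v).card = 2 * nl s' t' S := by
    rw [← sum_cut s' t' S]
    simp_rw [hcut]
    refine sum_subset (subset_univ A) fun v _ hv => ?_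
    rw [card_eq_zero, eq_empty_iff_forall_notMem]
    intro w hw
    exact hv (hin (mem_nb.1 hw).2)
  have hodd : ∀ v, v ∈ odd s' t' S ↔ (nb H A v).card % 2 = 1 := by
    intro v
    rw [odd_iff_cut, hcut]
  have hoA : odd s' t' S ⊆ A := by
    intro v hv
    rw [hodd] at hv
    obtain ⟨w, hw⟩ := card_pos.1 (show 0 < (nb H A v).card by omega)
    exact hin (mem_nb.1 hw).2
  by_contra hcon
  push Not at hcon
  obtain ⟨r, hr⟩ := even_card_odd s' t' S
  have hk : 18 ≤ A.card := by
    have := card_le_card hoA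
    omega
  have hkn : A.card ≤ Fintype.card V := card_image_le
  have hsq := sum_sq hs.girth A
  rw [← hH] at hsq
  have hcs : (2 * nl s' t' S) ^ 2 ≤ A.card * (A.card * (A.card - 1)) := by
    rw [← hsum]
    refine le_trans sq_sum_le_card_mul_sum_sq (Nat.mul_le_mul_left _ ?_)
    rw [Nat.mul_sub, mul_one]
    omega
  have h36 : A.card = 18 → nl s' t' S ≤ 36 := by
    intro h18
    have hAo : odd s' t' S = A := eq_of_subset_of_card_le hoA (by omega)
    have hd : ∀ v ∈ A, 8 * (nb H A v).card ≤ (nb H A v).card ^ 2 + 15 := by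
      intro v hv
      rw [← hAo, hodd] at hv
      have h3 : (nb H A v).card ≠ 1 := by
        rw [← hcut]; exact hN _
      have h4 : 3 ≤ (nb H A v).card := by omega
      obtain ⟨a, ha⟩ : ∃ a, (nb H A v).card = 2 * a + 3 := ⟨((nb H A v).card - 3) / 2, by omega⟩
      rw [ha]
      rcases Nat.eq_zero_or_pos a with rfl | hapos
      · norm_num
      · nlinarith
    have h5 := sum_le_sum hd
    rw [← mul_sum, hsum, sum_add_distrib, sum_const, h18, smul_eq_mul] at h5
    rw [h18] at hsq
    omega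
  have h6 := card_split (S := S) hl hp f hV
  have h7 := ar (Fintype.card V) A.card (nl s' t' S) hn hk hkn hcs h36
  rw [← hA, ← hs', ← ht'] at h6
  omega

end Q114.TC
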